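import Pool.Agent.Helper4X.Deg

/-!
# MP_d69e80_al: the growth of groups of derived length three and their eigenvalues

Let `S` be a finite symmetric generating set of a group `G` and `H` a subgroup of index at most `d`
such that `H''` is nilpotent (for instance `H''' = 1`) and `H'` is nilpotent or not virtually
nilpotent.  Call a complex number `z` critical if it is an algebraic unit, not a root of unity, and
an eigenvalue of an element of `H` on `ℂ ⊗ (H')^ab` or of an element of `H'` on `ℂ ⊗ (H'')^ab`.  The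
theorem says that `G` is virtually nilpotent or `ρ_S ≥ min (1, log M(z)) / (352 (2 d - 1))` for some
critical `z`, or just `ρ_S ≥ 1 / (352 (2 d - 1))` (there need not be a critical `z`).

Nothing is assumed about Lehmer's conjecture.  The earlier results of this kind are for groups with
`H'` nilpotent or `H / H''` not virtually nilpotent (and use only the first level `(H')^ab`).

After the theorem two unconditional consequences are proved:
* `gap_notReciprocal`: `ρ_S ≥ 1 / (2000 (2 d - 1))` if each critical `z` has odd degree or is, over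
  some totally real or CM number field, not conjugate to `1 / conj z`;
* `gap_dimension`: `ρ_S ≥ c / ((log (2 n)) ^ 3 (2 d - 1))`, with an absolute constant `c > 0`, if
  `ℂ ⊗ (H')^ab` and `ℂ ⊗ (H'')^ab` have dimension at most `n`.

The proof follows that of `DerivedLengthThreeLehmer` (the inequality for random sums with
multiplicative noise).  There the unit that governs the growth is arbitrary.  Here it is shown that
it is the value at an element of `H'` of a character by which `H'` acts on a quotient of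
`F ⊗ (H'')^ab`, so that it is an eigenvalue.
-/

set_option autoImplicit false

namespace Pool.Agent.Results.MP_d69e80_al.DerivedLengthThreeEigenvalues

open Filter Topology Polynomial
open scoped Pointwise TensorProduct ComplexConjugate

universe u

/-- The exponential growth rate `ρ_S = lim (1/n) log |S ^ n|`, where `S ^ n` is the set of all
products of `n` elements of `S` (pointwise power of sets). -/
noncomputable def rho {G : Type*} [Group G] (S : Set G) : ℝ :=
  limUnder atTop (fun n : ℕ => Real.log (Nat.card ↥(S ^ n)) / n)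

/-- The Mahler measure of an algebraic integer `x` (that of its minimal polynomial over `ℤ`). -/
noncomputable def mahler (x : ℂ) : ℝ := ((minpoly ℤ x).map (Int.castRingHom ℂ)).mahlerMeasure

/-- `x` is an algebraic unit (`x` and `x⁻¹` are algebraic integers) and not a root of unity. -/
def UnitNotRoot (x : ℂ) : Prop :=
  x ≠ 0 ∧ IsIntegral ℤ x ∧ IsIntegral ℤ x⁻¹ ∧ ∀ m > 0, x ^ m ≠ 1

/-- Conjugation by `t` on the abelianization `N^ab` (written additively) of a normal subgroup `N`,
as an endomorphism of the abelian group `N^ab`. -/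
noncomputable def conjAb {G : Type*} [Group G] (N : Subgroup G) [N.Normal] (t : G) :
    Module.End ℤ (Additive (Abelianization N)) :=
  (MonoidHom.toAdditive
    (Abelianization.map (MulAut.conjNormal t : N ≃* N).toMonoidHom)).toIntLinearMap

/-- `z` is an eigenvalue of an element `t` of `M`, acting by conjugation on `ℂ ⊗ (M')^ab`, and `z`
is an algebraic unit and not a root of unity. -/
def UnitEigenvalue (M : Type*) [Group M] (z : ℂ) : Prop :=
  (∃ t : M, Module.End.HasEigenvalue (LinearMap.baseChange ℂ (conjAb (commutator M) t) :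
    Module.End ℂ (ℂ ⊗[ℤ] Additive (Abelianization (commutator M)))) z) ∧ UnitNotRoot z

/-- `S` is a finite symmetric generating set of `G`, the subgroup `H` of `G` has finite index at most
`d`, the second derived subgroup `H''` is nilpotent, and `H'` is nilpotent or not virtually
nilpotent. -/
structure Setting {G : Type*} [Group G] (S : Set G) (H : Subgroup G) (d : ℕ) : Prop where
  finite : S.Finite
  symm : S⁻¹ = S
  gen : Subgroup.closure S = ⊤
  index_ne : H.index ≠ 0
  index_le : H.index ≤ d
  nil_two : Group.IsNilpotent (derivedSeries H 2)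
  nil_one : Group.IsNilpotent (commutator H) ∨ ¬ Group.IsVirtuallyNilpotent (commutator H)

/-- **Growth and eigenvalues in derived length three.**  Let `S`, `G`, `H`, `d` be as in
`Setting`.  The limit `ρ_S` exists, and `G` is virtually nilpotent or
`ρ_S ≥ 1 / (352 (2 d - 1))` or `ρ_S ≥ log M(z) / (352 (2 d - 1))` for some `z` that is a unit
eigenvalue for `H` (on `ℂ ⊗ (H')^ab`) or for `H'` (on `ℂ ⊗ (H'')^ab`). -/
theorem result (G : Type u) [Group G] (S : Set G) (H : Subgroup G) (d : ℕ) (hS : Setting S H d) :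
    Tendsto (fun n : ℕ => Real.log (Nat.card ↥(S ^ n)) / n) atTop (𝓝 (rho S)) ∧
    (Group.IsVirtuallyNilpotent G ∨ 1 / (352 * (2 * d - 1)) ≤ rho S ∨
      ∃ z : ℂ, (UnitEigenvalue H z ∨ UnitEigenvalue (commutator H) z) ∧
        Real.log (mahler z) / (352 * (2 * d - 1)) ≤ rho S) := by
  refine ⟨Pool.Agent.H746UG.tendsto_rho S, ?_⟩
  set F1 : Prop := Module.Finite ℤ (Additive (Abelianization (commutator H))) with hF1
  set F2 : Prop := Module.Finite ℤ (Additive (Abelianization (commutator (commutator H)))) with hF2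
  set N := max (Module.finrank ℂ (ℂ ⊗[ℤ] Additive (Abelianization (commutator H))))
    (Module.finrank ℂ (ℂ ⊗[ℤ] Additive (Abelianization (commutator (commutator H))))) with hN
  set Z : Set ℂ := {z | (UnitEigenvalue H z ∧ F1) ∨ (UnitEigenvalue (commutator H) z ∧ F2)} with hZ
  have hun : ∀ z ∈ Z, UnitNotRoot z := by
    rintro z (h | h)
    · exact h.1.2
    · exact h.1.2
  have hM1 : ∀ z ∈ Z, 1 ≤ mahler z := fun z hz => Pool.Agent.W963.GE.MM_ge z (hun z hz).2.1
  have hdeg : ∀ z ∈ Z, (minpoly ℤ z).natDegree ≤ N := by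
    rintro z (⟨⟨⟨t, ht⟩, hu⟩, hf⟩ | ⟨⟨⟨t, ht⟩, hu⟩, hf⟩)
    · have : Module.Finite ℤ (Additive (Abelianization (commutator H))) := hf
      exact (Pool.Agent.Helper4X.degree_le _ hu.2.1 ht).trans (le_max_left _ _)
    · have : Module.Finite ℤ (Additive (Abelianization (commutator (commutator H)))) := hf
      exact (Pool.Agent.Helper4X.degree_le _ hu.2.1 ht).trans (le_max_right _ _)
  have hE0 : (0 : ℝ) ≤ Real.exp 1 := (Real.exp_pos 1).le
  -- the general bound
  have key : ∀ μ : ℝ, 1 ≤ μ → (∀ z ∈ Z, μ ≤ mahler z) →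
      Group.IsVirtuallyNilpotent G ∨ min 1 (Real.log μ) / (352 * (2 * d - 1)) ≤ rho S := by
    intro μ hμ h
    refine Pool.Agent.Helper4X.gapT S hS.finite hS.symm hS.gen H d hS.index_ne hS.index_le
      hS.nil_two hS.nil_one (P := fun z => UnitEigenvalue H z)
      (P' := fun z => UnitEigenvalue (commutator H) z) ?_ ?_ hμ
      (fun hf x hx => h x (Or.inl ⟨hx, hf⟩)) (fun hf x hx => h x (Or.inr ⟨hx, hf⟩))
    · intro t z hz hu
      exact ⟨⟨t, hz⟩, hu⟩
    · intro t z hz hu
      exact ⟨⟨t, hz⟩, hu⟩
  by_cases hex : ∃ z ∈ Z, mahler z ≤ Real.exp 1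
  · -- the smallest Mahler measure
    have hfin : (mahler '' {z | z ∈ Z ∧ mahler z ≤ Real.exp 1}).Finite := by
      have h1 := Polynomial.finite_mahlerMeasure_le N ⟨Real.exp 1, hE0⟩
      refine (h1.image fun p : ℤ[X] => (p.map (Int.castRingHom ℂ)).mahlerMeasure).subset ?_
      rintro _ ⟨z, ⟨hz, hz1⟩, rfl⟩
      exact ⟨minpoly ℤ z, ⟨hdeg z hz, hz1⟩, rfl⟩
    obtain ⟨z1, hz1, hz1e⟩ := hex
    obtain ⟨m, ⟨z0, ⟨hz0, hz0e⟩, rfl⟩, hmin⟩ :=
      Set.exists_min_image _ id hfin ⟨_, ⟨z1, ⟨hz1, hz1e⟩, rfl⟩⟩
    have hlow : ∀ z ∈ Z, mahler z0 ≤ mahler z := by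
      intro z hz
      by_cases hze : mahler z ≤ Real.exp 1
      · exact hmin _ ⟨z, ⟨hz, hze⟩, rfl⟩
      · exact hz0e.trans (not_le.1 hze).le
    rcases key (mahler z0) (hM1 z0 hz0) hlow with h | h
    · exact Or.inl h
    · refine Or.inr (Or.inr ⟨z0, ?_, ?_⟩)
      · rcases hz0 with h0 | h0
        · exact Or.inl h0.1
        · exact Or.inr h0.1
      · have hlog : Real.log (mahler z0) ≤ 1 := by
          rw [← Real.log_exp 1]
          exact Real.log_le_log (by linarith [hM1 z0 hz0]) hz0e
        rwa [min_eq_right hlog] at h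
  · push Not at hex
    rcases key (Real.exp 1) (Real.one_le_exp (by norm_num)) (fun z hz => (hex z hz).le) with h | h
    · exact Or.inl h
    · refine Or.inr (Or.inl ?_)
      rwa [Real.log_exp, min_self] at h

/-! ### Consequences -/

/-- The dimension of the complex vector space `ℂ ⊗ (M')^ab` (zero if it is infinite). -/
noncomputable def dimAb (M : Type*) [Group M] : ℕ :=
  Module.finrank ℂ (ℂ ⊗[ℤ] Additive (Abelianization (commutator M)))

/-- The subfield `K` of `ℂ` is totally real or a CM field: some endomorphism `c` of `K` becomes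
complex conjugation under every embedding of `K` in `ℂ`. -/
def RealOrCM (K : IntermediateField ℚ ℂ) : Prop :=
  ∃ c : K →+* K, ∀ (σ : K →+* ℂ) (y : K), conj (σ y) = σ (c y)

/-- There is a number field `K` in `ℂ`, totally real or CM, such that `1 / conj z` is not a
conjugate of `z` over `K`. -/
def NotReciprocal (z : ℂ) : Prop :=
  ∃ K : IntermediateField ℚ ℂ, FiniteDimensional ℚ K ∧ RealOrCM K ∧
    aeval (conj z)⁻¹ (minpoly K z) ≠ 0

lemma Setting.pos {G : Type u} [Group G] {S : Set G} {H : Subgroup G} {d : ℕ}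
    (hS : Setting S H d) : (0 : ℝ) < 2 * d - 1 := by
  have h1 : 1 ≤ d := by
    have := hS.index_ne
    have := hS.index_le
    omega
  have : (1 : ℝ) ≤ d := by exact_mod_cast h1
  linarith

/-- If all the critical `z` have Mahler measure at least `μ ≥ 1`, then `G` is virtually nilpotent or
`ρ_S ≥ min (1, log μ) / (352 (2 d - 1))`. -/
theorem gap_mahler {G : Type u} [Group G] {S : Set G} {H : Subgroup G} {d : ℕ}
    (hS : Setting S H d) {μ : ℝ} (hμ : 1 ≤ μ)
    (h : ∀ z : ℂ, UnitEigenvalue H z ∨ UnitEigenvalue (commutator H) z → μ ≤ mahler z) :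
    Group.IsVirtuallyNilpotent G ∨ min 1 (Real.log μ) / (352 * (2 * d - 1)) ≤ rho S := by
  have hd := hS.pos
  rcases (result G S H d hS).2 with h1 | h1 | ⟨z, hz, h1⟩
  · exact Or.inl h1
  · exact Or.inr (le_trans (div_le_div_of_nonneg_right (min_le_left _ _) (by positivity)) h1)
  · right
    refine le_trans ?_ h1
    apply div_le_div_of_nonneg_right _ (by positivity)
    exact (min_le_right _ _).trans (Real.log_le_log (by linarith) (h z hz))

/-- If each critical `z` has odd degree or is not conjugate to `1 / conj z` over some totally real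
or CM number field, then `G` is virtually nilpotent or `ρ_S ≥ 1 / (2000 (2 d - 1))`. -/
theorem gap_notReciprocal {G : Type u} [Group G] {S : Set G} {H : Subgroup G} {d : ℕ}
    (hS : Setting S H d)
    (h : ∀ z : ℂ, UnitEigenvalue H z ∨ UnitEigenvalue (commutator H) z →
      Odd (minpoly ℤ z).natDegree ∨ NotReciprocal z) :
    Group.IsVirtuallyNilpotent G ∨ 1 / (2000 * (2 * d - 1)) ≤ rho S := by
  have hμ0 : (0 : ℝ) ≤ 8 / 5 := by norm_num
  have hμ1 : (1 : ℝ) ≤ Real.sqrt (8 / 5) := by
    rw [Real.one_le_sqrt]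
    norm_num
  have hd := hS.pos
  have hbig : ∀ z : ℂ, UnitEigenvalue H z ∨ UnitEigenvalue (commutator H) z →
      Real.sqrt (8 / 5) ≤ mahler z := by
    intro z hz
    have hu : UnitNotRoot z := by
      rcases hz with hz | hz
      · exact hz.2
      · exact hz.2
    have hn : Pool.Agent.R701.UG.NotRecip z := by
      rcases h z hz with h1 | h1
      · exact Pool.Agent.R701.UG.notRecip_of_odd hu.2.1 hu.1 hu.2.2.1 hu.2.2.2 h1
      · exact h1
    have h1 := Pool.Agent.R701.UG.one_le_of_notRecip hu.2.1 hu.1 hu.2.2.1 hn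
    have hM : 1 ≤ Pool.Agent.W963.GE.MM z := Pool.Agent.W963.GE.MM_ge z hu.2.1
    set M := Pool.Agent.W963.GE.MM z with hMdef
    have hM2 : 0 < M ^ 2 := by positivity
    have h2 : 8 / 5 ≤ M ^ 2 := by
      by_contra hcon
      push Not at hcon
      have h3 : 5 / 8 < 1 / M ^ 2 := by
        rw [lt_div_iff₀ hM2]
        linarith
      linarith
    show Real.sqrt (8 / 5) ≤ M
    rw [Real.sqrt_le_left (by linarith)]
    exact h2
  rcases gap_mahler hS hμ1 hbig with h1 | h1
  · exact Or.inl h1
  · right
    refine le_trans ?_ h1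
    have h2 : Real.log (Real.sqrt (8 / 5)) = Real.log (8 / 5) / 2 := Real.log_sqrt hμ0
    have h3 : 1 - (8 / 5 : ℝ)⁻¹ ≤ Real.log (8 / 5) :=
      Real.one_sub_inv_le_log_of_pos (by norm_num)
    have h4 : (0.1875 : ℝ) ≤ min 1 (Real.log (Real.sqrt (8 / 5))) := by
      apply le_min (by norm_num)
      rw [h2]
      norm_num at h3 ⊢
      linarith
    rw [div_le_div_iff₀ (by positivity) (by positivity)]
    nlinarith

/-- There is an absolute constant `c > 0` such that if `ℂ ⊗ (H')^ab` and `ℂ ⊗ (H'')^ab` have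
dimension at most `n`, `n ≥ 1`, then `G` is virtually nilpotent or
`ρ_S ≥ c / ((log (2 n)) ^ 3 (2 d - 1))`. -/
theorem gap_dimension :
    ∃ c : ℝ, 0 < c ∧ ∀ (G : Type u) [Group G] (S : Set G) (H : Subgroup G) (d n : ℕ),
      Setting S H d → 1 ≤ n → dimAb H ≤ n → dimAb (commutator H) ≤ n →
      Group.IsVirtuallyNilpotent G ∨ c / (Real.log (2 * n) ^ 3 * (2 * d - 1)) ≤ rho S := by
  obtain ⟨c0, hc0, hdob⟩ := Pool.Agent.W963.GE.mm_dob
  have hlog2 : 0 < Real.log 2 := Real.log_pos (by norm_num)
  refine ⟨min c0 (Real.log 2 ^ 3) / 352, by positivity, ?_⟩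
  intro G _ S H d n hS hn hn1 hn2
  have hd := hS.pos
  have hn' : (1 : ℝ) ≤ n := by exact_mod_cast hn
  set L := Real.log (2 * n) with hL
  have hL2 : Real.log 2 ≤ L := Real.log_le_log (by norm_num) (by linarith)
  have hL0 : 0 < L := by linarith
  set μ := Real.exp (c0 / L ^ 3) with hμ
  have hμ1 : 1 ≤ μ := Real.one_le_exp (by positivity)
  have key : ∀ (M : Type u) [Group M], dimAb M ≤ n →
      Pool.Agent.Helper4X.EigC M (fun z => UnitNotRoot z ∧
        (Module.Finite ℤ (Additive (Abelianization (commutator M))) →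
          (minpoly ℤ z).natDegree ≤ n)) := by
    intro M _ hM t z hz hu
    refine ⟨hu, fun hf => le_trans ?_ hM⟩
    exact Pool.Agent.Helper4X.degree_le _ hu.2.1 hz
  have key2 : ∀ z : ℂ, UnitNotRoot z → (minpoly ℤ z).natDegree ≤ n →
      μ ≤ Pool.Agent.W963.GE.MM z := by
    intro z hu hdeg
    have h1 := hdob z hu.2.1 hu.1 hu.2.2.2
    have hM : 1 ≤ Pool.Agent.W963.GE.MM z := Pool.Agent.W963.GE.MM_ge z hu.2.1
    have hdeg1 : 1 ≤ (minpoly ℤ z).natDegree := minpoly.natDegree_pos hu.2.1
    have hdeg1' : (1 : ℝ) ≤ (minpoly ℤ z).natDegree := by exact_mod_cast hdeg1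
    have hdeg' : ((minpoly ℤ z).natDegree : ℝ) ≤ n := by exact_mod_cast hdeg
    have hl : Real.log (2 * (minpoly ℤ z).natDegree) ≤ L :=
      Real.log_le_log (by linarith) (by linarith)
    have hl0 : 0 < Real.log (2 * (minpoly ℤ z).natDegree) := Real.log_pos (by linarith)
    have h2 : c0 / L ^ 3 ≤ c0 / Real.log (2 * (minpoly ℤ z).natDegree) ^ 3 := by
      apply div_le_div_of_nonneg_left hc0.le (by positivity)
      exact pow_le_pow_left₀ hl0.le hl 3
    rw [hμ, ← Real.exp_log (show 0 < Pool.Agent.W963.GE.MM z by linarith)]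
    exact Real.exp_le_exp.2 (h2.trans h1)
  rcases Pool.Agent.Helper4X.gapT S hS.finite hS.symm hS.gen H d hS.index_ne hS.index_le
    hS.nil_two hS.nil_one (key H hn1) (key (commutator H) hn2) hμ1
    (fun hf x hx => key2 x hx.1 (hx.2 hf)) (fun hf x hx => key2 x hx.1 (hx.2 hf)) with h | h
  · exact Or.inl h
  · right
    refine le_trans ?_ h
    have h1 : min c0 (Real.log 2 ^ 3) / L ^ 3 ≤ min 1 (Real.log μ) := by
      apply le_min
      · rw [div_le_one (by positivity)]
        exact (min_le_right _ _).trans (pow_le_pow_left₀ hlog2.le hL2 3)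
      · rw [hμ, Real.log_exp]
        exact div_le_div_of_nonneg_right (min_le_left _ _) (by positivity)
    have e : min c0 (Real.log 2 ^ 3) / 352 / (L ^ 3 * (2 * d - 1)) =
        min c0 (Real.log 2 ^ 3) / L ^ 3 / (352 * (2 * d - 1)) := by
      field_simp
    rw [e]
    exact div_le_div_of_nonneg_right h1 (by positivity)

end Pool.Agent.Results.MP_d69e80_al.DerivedLengthThreeEigenvalues
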