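import Pool.Agent.Helper4W.Core

/-!
# MP_d69e80_al: a gap for metabelian groups gives a gap for derived length three

Let `S` be a finite symmetric generating set of a group `G` and `H` a subgroup of index at most `d`.
We prove that either `ρ_S ≥ min (1, log M(x)) / (352 (2 d - 1))` for an algebraic unit `x` that is
not a root of unity (`M` is the Mahler measure), or `H` is tame: all subgroups of `H / H'''` are
finitely generated, `H / H''` is virtually nilpotent, `H' / H'''` is virtually nilpotent, `H / H'''`
is virtually nilpotent if `H' / H'''` is nilpotent, and so on (see `Tame`).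

So if a uniform gap holds for metabelian groups then it holds for all groups of derived length three
with `H'` nilpotent or not virtually nilpotent.

Idea of the proof.  The new case is the one where all subgroups of `G` are finitely generated,
`G''' = 1` and `M = G'` is not virtually nilpotent.  Then `M` acts on a field `F` of
characteristic zero by affine maps `y ↦ χ(m) y + b(m)` with `b` not zero on `M` and `χ(c)` not a
root of unity for a short commutator `c` fixing `0`.  As in the case of groups that are not
polycyclic, a shortest word `g` (with `K` letters) such that `g d g⁻¹` moves `0` for a short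
commutator `d` gives `K` affine lines on which conjugates of `c` and of `d` act in a triangular way.
For the fixed products `U` of conjugates of `c` (a sign choice makes `χ_k(U)` of infinite order on at
least half of the lines `k`) the products of the `A_r U A_r⁻¹`, `r = 1, ..., R`, with `A_r` a random
product of conjugates of `d`, are, on the line `k`, sums `∑ ε_r σ_r u ^ r` with random digits `ε_r`
and independent multiplicative noise `σ_r`.  The new tool is an inequality for such sums
(`Pool.Agent.Helper4W.ci_main`): by Fourier analysis and convexity the collision probability of a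
sum with noise is at most the mean over the constant noises of the collision probabilities of the
sums with lazy digits, and for those the Mahler measure bound holds.
-/

set_option autoImplicit false

namespace Pool.Agent.Results.MP_d69e80_al.DerivedLengthThreeLehmer

open Filter Topology Polynomial
open scoped Pointwise

universe u

/-- The exponential growth rate `ρ_S = lim (1/n) log |S ^ n|`, where `S ^ n` is the set of all
products of `n` elements of `S` (pointwise power of sets). -/
noncomputable def rho {G : Type*} [Group G] (S : Set G) : ℝ :=
  limUnder atTop (fun n : ℕ => Real.log (Nat.card ↥(S ^ n)) / n)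

/-- The Mahler measure of an algebraic integer `x` (that of its minimal polynomial over `ℤ`). -/
noncomputable def mahler (x : ℂ) : ℝ := ((minpoly ℤ x).map (Int.castRingHom ℂ)).mahlerMeasure

/-- `x` is an algebraic unit (`x` and `x⁻¹` are algebraic integers) and not a root of unity. -/
def UnitNotRoot (x : ℂ) : Prop :=
  x ≠ 0 ∧ IsIntegral ℤ x ∧ IsIntegral ℤ x⁻¹ ∧ ∀ m > 0, x ^ m ≠ 1

/-- The second alternative of the theorem, for a group `H`:
all subgroups of `H / H'''` are finitely generated; `H / H''` is virtually nilpotent; the derived
subgroup of `H / H'''` is virtually nilpotent, and if it is nilpotent then `H / H'''` is virtually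
nilpotent; if `H''` is nilpotent then all subgroups of `H` are finitely generated and `H'` is
virtually nilpotent; if `H'` is nilpotent then `H` is virtually nilpotent. -/
structure Tame (H : Type*) [Group H] : Prop where
  fg : ∀ K : Subgroup (H ⧸ derivedSeries H 3), K.FG
  metabelian : Group.IsVirtuallyNilpotent (H ⧸ derivedSeries H 2)
  derived : Group.IsVirtuallyNilpotent (commutator (H ⧸ derivedSeries H 3))
  whole : Group.IsNilpotent (commutator (H ⧸ derivedSeries H 3)) →
    Group.IsVirtuallyNilpotent (H ⧸ derivedSeries H 3)
  nil_two : Group.IsNilpotent (derivedSeries H 2) →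
    (∀ K : Subgroup H, K.FG) ∧ Group.IsVirtuallyNilpotent (commutator H)
  nil_one : Group.IsNilpotent (commutator H) → Group.IsVirtuallyNilpotent H

/-- Let `S` be a finite symmetric generating set of a group `G` and `H` a subgroup of index at
most `d`.  The limit `ρ_S` exists, and either `ρ_S ≥ min (1, log M(x)) / (352 (2 d - 1))` for an
algebraic unit `x` that is not a root of unity, or `H` is tame.
(In particular, if `H''` is nilpotent, for example trivial, and `H'` is nilpotent or not virtually
nilpotent, then `G` is virtually nilpotent or the first alternative holds.) -/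
theorem result (G : Type u) [Group G] (S : Set G) (hfin : S.Finite) (hsym : S⁻¹ = S)
    (hgen : Subgroup.closure S = ⊤) :
    Tendsto (fun n : ℕ => Real.log (Nat.card ↥(S ^ n)) / n) atTop (𝓝 (rho S)) ∧
    ∀ (H : Subgroup G) (d : ℕ), H.index ≠ 0 → H.index ≤ d →
      (∃ x : ℂ, UnitNotRoot x ∧ min 1 (Real.log (mahler x)) / (352 * (2 * d - 1)) ≤ rho S) ∨
        Tame H := by
  refine ⟨Pool.Agent.H746UG.tendsto_rho S, ?_⟩
  intro H d hH hd
  rcases Pool.Agent.Helper4W.final S hfin hsym hgen H d hH hd with h | h
  · exact Or.inl h
  · right
    obtain ⟨h1, h2, h3, h4, h5, h6⟩ := h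
    exact ⟨fun K => h1 K le_top, h2, h3, h4, fun h => ⟨fun K => (h5 h).1 K le_top, (h5 h).2⟩, h6⟩

/-! ### The consequence for the question -/

/-- The growth gap with constant `c` for metabelian groups (solvability class at most 2). -/
def ClassTwoGap (c : ℝ) : Prop :=
  ∀ (G : Type) [Group G] (S : Set G), S.Finite → Subgroup.closure S = ⊤ →
    derivedSeries G 2 = ⊥ → Group.IsVirtuallyNilpotent G ∨ c ≤ rho S

/-- A gap `c` for metabelian groups gives the gap `min (c, log 2) / (352 (2 d - 1))` for finite
symmetric generating sets of the groups `G` that have a subgroup `H` of index at most `d` with `H''`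
nilpotent (for example trivial) and with `H'` nilpotent or not virtually nilpotent. -/
theorem gap_of_metabelian_gap (c : ℝ) (hc : ClassTwoGap c) (G : Type u) [Group G] (S : Set G)
    (hfin : S.Finite) (hsym : S⁻¹ = S) (hgen : Subgroup.closure S = ⊤) (H : Subgroup G) (d : ℕ)
    (hH : H.index ≠ 0) (hd : H.index ≤ d) (hnil : Group.IsNilpotent (derivedSeries H 2))
    (hex : Group.IsNilpotent (commutator H) ∨ ¬ Group.IsVirtuallyNilpotent (commutator H)) :
    Group.IsVirtuallyNilpotent G ∨ min c (Real.log 2) / (352 * (2 * d - 1)) ≤ rho S := by
  have hL := Pool.Agent.W963.GE.lehmer_of_met hc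
  have hd1 : (1 : ℝ) ≤ d := by
    have : 1 ≤ d := by omega
    exact_mod_cast this
  have hpos : (0 : ℝ) < 352 * (2 * d - 1) := by
    have : (0 : ℝ) < 2 * d - 1 := by linarith
    positivity
  rcases (result G S hfin hsym hgen).2 H d hH hd with ⟨x, hx, h⟩ | h
  · right
    refine le_trans ?_ h
    apply div_le_div_of_nonneg_right _ hpos.le
    have hx' : Pool.Agent.W963.GE.UnitNotRoot x := hx
    have h3 : 1 + min 1 (Real.exp c - 1) ≤ mahler x := by
      rcases hL (minpoly ℤ x) (minpoly.monic hx.2.1).ne_zero with h3 | h3
      · exfalso
        have h4 := Pool.Agent.W963.GE.MM_gt x hx.2.1 hx.1 hx.2.2.2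
        unfold Pool.Agent.W963.GE.MM at h4
        linarith
      · exact h3
    have h4 : Real.exp (min c (Real.log 2)) ≤ mahler x := by
      refine le_trans ?_ h3
      rcases le_total c (Real.log 2) with h5 | h5
      · rw [min_eq_left h5]
        have h6 : Real.exp c ≤ 2 := by
          calc Real.exp c ≤ Real.exp (Real.log 2) := Real.exp_le_exp.2 h5
            _ = 2 := Real.exp_log (by norm_num)
        rw [min_eq_right (by linarith)]
        linarith
      · rw [min_eq_right h5, Real.exp_log (by norm_num)]
        have h6 : (2 : ℝ) ≤ Real.exp c := by
          calc (2 : ℝ) = Real.exp (Real.log 2) := (Real.exp_log (by norm_num)).symm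
            _ ≤ Real.exp c := Real.exp_le_exp.2 h5
        rw [min_eq_left (by linarith)]
        norm_num
    have h5 : min c (Real.log 2) ≤ Real.log (mahler x) := by
      rw [← Real.log_exp (min c (Real.log 2))]
      exact Real.log_le_log (Real.exp_pos _) h4
    have h6 : min c (Real.log 2) ≤ 1 := by
      refine (min_le_right _ _).trans ?_
      have := Real.log_two_lt_d9
      linarith
    exact le_min h6 h5
  · left
    apply Pool.Agent.W963.GE.vn_of_sub H hH
    rcases hex with h6 | h6
    · exact h.nil_one h6
    · exact absurd (h.nil_two hnil).2 h6

end Pool.Agent.Results.MP_d69e80_al.DerivedLengthThreeLehmer
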