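import Mathlib
import Pool.Agent.Helper42.UG.Crit

/-!
# Uniform growth gap: only eigenvalues with equidistributed conjugates matter

`G = ⟨S⟩`, `H` is a subgroup of index at most `d`, `Γ = γ_{k+1}(H)` is nilpotent (or `H/[Γ,Γ]` is
not virtually nilpotent).  For an algebraic number `z` of degree `n` compare the number of its
conjugates `w` with `α ≤ arg w ≤ β` and `|log |w|| ≤ η`, where `η ≥ 1/√n`, with `n (β - α) / 2π`.
We call `z` irregular if for some `α, β, η` the difference is at least `7 √n log (2 n)` in absolute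
value (for instance, if `z` has `14 √n log (2 n)` real conjugates, or if no conjugate lies in a
certain disc of radius about `25 log (2 n) / √n` with its centre on the unit circle).

Suppose that every eigenvalue `z` of every `t ∈ H` on `ℂ ⊗ Γ^ab` which is an algebraic unit and not a
root of unity is of degree at most `D`, or is irregular, or is not conjugate to `1 / conj z` over some
totally real or CM field.  Then `G` is virtually nilpotent or
`ρ_S ≥ c / ((log 2 D) ^ 3 2 ^ k (2 d - 1))`, with an absolute constant `c > 0`.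

Proof.  The reduction to digit sums of one eigenvalue is `Pool.Agent.TH53.UG.gap_general`.  The new
part is an inequality for the discrepancy: for every irreducible integer polynomial of degree `n` and
Mahler measure `M` the number of zeros in the above set differs from `n (β - α) / 2π` by at most
`6 √n log (2 n) + 5 √n log M`.  It is obtained from the energy inequality of
`Pool.Agent.Y94.LL.energy` by integrating a binomial kernel over an arc.
-/

set_option autoImplicit false

namespace Pool.Agent.Results.MP_d69e80_al.EquidistributedEigenvalues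

open Filter Topology Polynomial
open scoped Pointwise commutatorElement TensorProduct ComplexConjugate

universe u

/-- The term `γ_{k+1}(G)` of the lower central series (so `k = 1` gives `G'`). -/
abbrev gamma (G : Type*) [Group G] (k : ℕ) : Subgroup G := (⊤ : Subgroup G).lowerCentralSeries k

/-- Conjugation by `t` on the abelianization `N^ab` (written additively) of a normal subgroup `N`,
as an endomorphism of the abelian group `N^ab`. -/
noncomputable def conjAb {G : Type*} [Group G] (N : Subgroup G) [N.Normal] (t : G) :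
    Module.End ℤ (Additive (Abelianization N)) :=
  (MonoidHom.toAdditive
    (Abelianization.map (MulAut.conjNormal t : N ≃* N).toMonoidHom)).toIntLinearMap

/-- The exponential growth rate `ρ_S = lim (1/n) log |S ^ n|`. -/
noncomputable def rho {G : Type*} [Group G] (S : Set G) : ℝ :=
  limUnder atTop (fun n : ℕ => Real.log (Nat.card ↥(S ^ n)) / n)

/-- The subfield `K` of `ℂ` is totally real or a CM field: some endomorphism `c` of `K` becomes
complex conjugation under every embedding of `K` in `ℂ`. -/
def RealOrCM (K : IntermediateField ℚ ℂ) : Prop :=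
  ∃ c : K →+* K, ∀ (σ : K →+* ℂ) (y : K), conj (σ y) = σ (c y)

/-- There is a number field `K` in `ℂ`, totally real or CM, such that `1 / conj z` is not a
conjugate of `z` over `K`. -/
def NotReciprocal (z : ℂ) : Prop :=
  ∃ K : IntermediateField ℚ ℂ, FiniteDimensional ℚ K ∧ RealOrCM K ∧
    aeval (conj z)⁻¹ (minpoly K z) ≠ 0

/-- `|log |w|| ≤ η`, and some argument of `w` lies in `[α, β]`. -/
def InAnnulus (α β η : ℝ) (w : ℂ) : Prop :=
  |Real.log ‖w‖| ≤ η ∧ ∃ θ : ℝ, α ≤ θ ∧ θ ≤ β ∧ w = (‖w‖ : ℂ) * Complex.exp (θ * Complex.I)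

/-- The number of the conjugates `w` of `z` over `ℚ` with `|log |w|| ≤ η` and an argument in
`[α, β]`. -/
noncomputable def count (z : ℂ) (α β η : ℝ) : ℕ :=
  {w : ℂ | aeval w (minpoly ℚ z) = 0 ∧ InAnnulus α β η w}.ncard

/-- The conjugates of `z` are not equidistributed: if `n` is the degree of `z`, there are
`α ≤ β ≤ α + 2π` and `η ≥ 1/√n` such that the number of the conjugates `w` with `|log |w|| ≤ η` and
an argument in `[α, β]` differs from `n (β - α) / 2π` by at least `7 √n log (2 n)`. -/
def Irregular (z : ℂ) : Prop :=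
  ∃ α β η : ℝ, α ≤ β ∧ β ≤ α + 2 * Real.pi ∧ 1 / √((minpoly ℚ z).natDegree : ℝ) ≤ η ∧
    7 * √((minpoly ℚ z).natDegree : ℝ) * Real.log (2 * (minpoly ℚ z).natDegree) ≤
      |count z α β η - (minpoly ℚ z).natDegree * (β - α) / (2 * Real.pi)|

/-- `x` is an algebraic unit (`x` and `x⁻¹` are algebraic integers) and not a root of unity. -/
def UnitNotRoot (x : ℂ) : Prop :=
  x ≠ 0 ∧ IsIntegral ℤ x ∧ IsIntegral ℤ x⁻¹ ∧ ∀ m > 0, x ^ m ≠ 1

/-- `x` is an algebraic unit, not a root of unity, of degree greater than `D`, conjugate to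
`1 / conj x` over every totally real or CM number field, and its conjugates are equidistributed. -/
def Critical (D : ℕ) (x : ℂ) : Prop :=
  UnitNotRoot x ∧ D < (minpoly ℚ x).natDegree ∧ ¬ NotReciprocal x ∧ ¬ Irregular x

/-- `z` is an eigenvalue of `t` acting by conjugation on `ℂ ⊗ N^ab`. -/
def IsEigenvalue {G : Type u} [Group G] (N : Subgroup G) [N.Normal] (t : G) (z : ℂ) : Prop :=
  Module.End.HasEigenvalue (LinearMap.baseChange ℂ (conjAb N t) :
    Module.End ℂ (ℂ ⊗[ℤ] Additive (Abelianization N))) z

/-- The class of groups, for `k`: with `Γ = γ_{k+1}(G)`, either `Γ` is nilpotent or `G / [Γ, Γ]` is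
not virtually nilpotent. -/
def InClass (k : ℕ) (G : Type u) [Group G] : Prop :=
  Group.IsNilpotent (gamma G k) ∨ ¬ Group.IsVirtuallyNilpotent (G ⧸ ⁅gamma G k, gamma G k⁆)

/-- No element of `G` has a critical eigenvalue on `ℂ ⊗ γ_{k+1}(G)^ab`. -/
def NoCriticalEigenvalue (D k : ℕ) (G : Type u) [Group G] : Prop :=
  ∀ (t : G) (z : ℂ), IsEigenvalue (gamma G k) t z → ¬ Critical D z

/-- There is an absolute constant `c₀ > 0` with the following property.
Let `S` be a finite generating set of a group `G`, `H` a subgroup of index at most `d`,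
`k ≥ 1`, `D ≥ 1` and `Γ = γ_{k+1}(H)`.  Suppose that `Γ` is nilpotent or that `H / [Γ, Γ]` is not
virtually nilpotent.  Suppose that no eigenvalue of an element of `H` on `ℂ ⊗ Γ^ab` is critical, that
is: every eigenvalue `z` of every `t ∈ H` which is an algebraic unit and not a root of unity has
degree at most `D`, or is not conjugate to `1 / conj z` over some totally real or CM number field, or
its conjugates are not equidistributed.  Then `ρ_S` exists and `G` is virtually nilpotent or
`ρ_S ≥ c₀ / ((log 2D) ^ 3 2 ^ k (2 d - 1))`. -/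
theorem result : ∃ c₀ : ℝ, 0 < c₀ ∧
    ∀ (k d D : ℕ), 1 ≤ k → 1 ≤ D → ∀ (G : Type u) [Group G] (S : Set G), S.Finite →
      Subgroup.closure S = ⊤ → ∀ H : Subgroup G, H.index ≠ 0 → H.index ≤ d →
      InClass k H → NoCriticalEigenvalue D k H →
      Tendsto (fun n : ℕ => Real.log (Nat.card ↥(S ^ n)) / n) atTop (𝓝 (rho S)) ∧
        (Group.IsVirtuallyNilpotent G ∨
          c₀ / (Real.log (2 * D) ^ 3 * 2 ^ k * (2 * d - 1)) ≤ rho S) := by
  obtain ⟨c, hc, hc1, hmm⟩ := Pool.Agent.Helper42.UG.log_mm
  refine ⟨c / 4, by positivity, ?_⟩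
  intro k d D hk hD G _ S hfin hgen H hH0 hHd hnil hcrit
  refine ⟨Pool.Agent.H746UG.tendsto_rho S, ?_⟩
  have hD1 : (1 : ℝ) ≤ D := by exact_mod_cast hD
  have hl2 : 0 < Real.log 2 := Real.log_pos (by norm_num)
  have hLD : Real.log 2 ≤ Real.log (2 * D) := Real.log_le_log (by norm_num) (by linarith)
  have hLD3 : Real.log 2 ^ 3 ≤ Real.log (2 * D) ^ 3 := pow_le_pow_left₀ hl2.le hLD 3
  have hLD0 : 0 < Real.log (2 * D) ^ 3 := (pow_pos hl2 3).trans_le hLD3
  have hδ0 : 0 < c / Real.log (2 * D) ^ 3 := by positivity
  have hδ1 : c / Real.log (2 * D) ^ 3 ≤ 1 / 180 :=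
    (div_le_div_of_nonneg_left hc.le (pow_pos hl2 3) hLD3).trans hc1
  have h := Pool.Agent.Helper42.UG.gap_critical hk hδ0 hδ1 S hfin hgen H hH0 hHd hnil
    (fun t z hz hu => hmm D hD z hu (hcrit t z hz))
  have e : c / 4 / (Real.log (2 * D) ^ 3 * 2 ^ k * (2 * d - 1)) =
      c / Real.log (2 * D) ^ 3 / (2 ^ (k + 2) * (2 * d - 1)) := by
    rw [div_div, div_div]
    congr 1
    ring
  rw [e]
  exact h

end Pool.Agent.Results.MP_d69e80_al.EquidistributedEigenvalues
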