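import Mathlib
import Pool.Agent.Helper42.UG.Ord

/-!
# Uniform growth gap: only eigenvalues of large order modulo all primes matter

`G = ⟨S⟩`, `H` is a subgroup of index at most `d`, `Γ = γ_{k+1}(H)` is nilpotent (or `H/[Γ,Γ]` is
not virtually nilpotent).  Suppose that for every eigenvalue `z` of every `t ∈ H` on `ℂ ⊗ Γ^ab` which
is an algebraic unit and not a root of unity there are a prime `p` and an integer `N ≤ B n`, where
`n` is the degree of `z`, such that the minimal polynomial of `z` and `X ^ N - 1` have a common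
divisor of degree at least `λ n / log p` modulo `p` (where `0 < λ ≤ 1 ≤ B`).  Then `G` is virtually
nilpotent or `ρ_S ≥ (λ / 20) ^ 5 / (B 2 ^ (k + 2) (2 d - 1))`.

Neither `p` nor `N` is bounded here, and only a small proportion of the residues of the conjugates
of `z` has to be of small order.  For instance, it is enough that `z ^ N ≡ 1 mod p` for some prime
`p` and some `N ≤ B n`.  The conditions of the starting results `BoundedExponentModP` (then
`N = e p ^ j` with `p ^ j ≤ p n` can be used) and `FactorsModP` (at least `n / B` irreducible factors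
modulo a prime `p ≤ P`; half of them have degree at most `2 B`, and their roots have bounded order,
up to `p`-powers) are special cases.

Proof.  The reduction to digit sums of one eigenvalue is `Pool.Agent.TH53.UG.gap_general`, and the
lower bound for the Mahler measure is `Pool.Agent.H252R3.Leh.main_monic`.
-/

set_option autoImplicit false

namespace Pool.Agent.Results.MP_d69e80_al.SmallOrdersModP

open Filter Topology Polynomial
open scoped Pointwise commutatorElement TensorProduct ComplexConjugate

universe u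

/-- The term `γ_{k+1}(G)` of the lower central series (so `k = 1` gives `G'`). -/
abbrev gamma (G : Type*) [Group G] (k : ℕ) : Subgroup G := (⊤ : Subgroup G).lowerCentralSeries k

/-- Conjugation by `t` on the abelianization `N^ab` (written additively) of a normal subgroup `N`,
as an endomorphism of the abelian group `N^ab`. -/
noncomputable def conjAb {G : Type*} [Group G] (N : Subgroup G) [N.Normal] (t : G) :
    Module.End ℤ (Additive (Abelianization N)) :=
  (MonoidHom.toAdditive
    (Abelianization.map (MulAut.conjNormal t : N ≃* N).toMonoidHom)).toIntLinearMap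

/-- The exponential growth rate `ρ_S = lim (1/n) log |S ^ n|`. -/
noncomputable def rho {G : Type*} [Group G] (S : Set G) : ℝ :=
  limUnder atTop (fun n : ℕ => Real.log (Nat.card ↥(S ^ n)) / n)

/-- `x` is an algebraic unit (`x` and `x⁻¹` are algebraic integers) and not a root of unity. -/
def UnitNotRoot (x : ℂ) : Prop :=
  x ≠ 0 ∧ IsIntegral ℤ x ∧ IsIntegral ℤ x⁻¹ ∧ ∀ m > 0, x ^ m ≠ 1

/-- Let `f` be the minimal polynomial of `z` and `n` its degree.  There are a prime `p` and a
positive integer `N ≤ B n` such that `f` and `X ^ N - 1` have a common divisor `h` modulo `p` with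
`deg h ≥ lam n / log p`. -/
def SmallOrder (lam B : ℝ) (z : ℂ) : Prop :=
  ∃ (p : ℕ) (_ : Fact p.Prime) (N : ℕ) (h : (ZMod p)[X]), 0 < N ∧
    (N : ℝ) ≤ B * (minpoly ℤ z).natDegree ∧
    h ∣ (minpoly ℤ z).map (Int.castRingHom (ZMod p)) ∧ h ∣ X ^ N - 1 ∧
    lam * (minpoly ℤ z).natDegree ≤ h.natDegree * Real.log p

/-- `z` is an eigenvalue of `t` acting by conjugation on `ℂ ⊗ N^ab`. -/
def IsEigenvalue {G : Type u} [Group G] (N : Subgroup G) [N.Normal] (t : G) (z : ℂ) : Prop :=
  Module.End.HasEigenvalue (LinearMap.baseChange ℂ (conjAb N t) :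
    Module.End ℂ (ℂ ⊗[ℤ] Additive (Abelianization N))) z

/-- The class of groups, for `k`: with `Γ = γ_{k+1}(G)`, either `Γ` is nilpotent or `G / [Γ, Γ]` is
not virtually nilpotent. -/
def InClass (k : ℕ) (G : Type u) [Group G] : Prop :=
  Group.IsNilpotent (gamma G k) ∨ ¬ Group.IsVirtuallyNilpotent (G ⧸ ⁅gamma G k, gamma G k⁆)

/-- Let `0 < lam ≤ 1 ≤ B`.
Let `S` be a finite generating set of a group `G`, `H` a subgroup of index at most `d`,
`k ≥ 1` and `Γ = γ_{k+1}(H)`.  Suppose that `Γ` is nilpotent or that `H / [Γ, Γ]` is not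
virtually nilpotent.  Suppose that every eigenvalue `z` of every `t ∈ H` on `ℂ ⊗ Γ^ab` which is an
algebraic unit and not a root of unity satisfies `SmallOrder lam B z`.  Then `ρ_S` exists and `G` is
virtually nilpotent or `ρ_S ≥ (lam / 20) ^ 5 / (B 2 ^ (k + 2) (2 d - 1))`. -/
theorem result (lam B : ℝ) (hl0 : 0 < lam) (hl1 : lam ≤ 1) (hB : 1 ≤ B) :
    ∀ (k d : ℕ), 1 ≤ k → ∀ (G : Type u) [Group G] (S : Set G), S.Finite →
      Subgroup.closure S = ⊤ → ∀ H : Subgroup G, H.index ≠ 0 → H.index ≤ d → InClass k H →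
      (∀ (t : H) (z : ℂ), IsEigenvalue (gamma H k) t z → UnitNotRoot z → SmallOrder lam B z) →
      Tendsto (fun n : ℕ => Real.log (Nat.card ↥(S ^ n)) / n) atTop (𝓝 (rho S)) ∧
        (Group.IsVirtuallyNilpotent G ∨
          (lam / 20) ^ 5 / (B * 2 ^ (k + 2) * (2 * d - 1)) ≤ rho S) := by
  have hB0 : 0 < B := zero_lt_one.trans_le hB
  intro k d hk G _ S hfin hgen H hH0 hHd hnil hsmall
  refine ⟨Pool.Agent.H746UG.tendsto_rho S, ?_⟩
  have h1 : (lam / 20) ^ 5 ≤ 1 / 180 := by
    calc (lam / 20) ^ 5 ≤ (1 / 20 : ℝ) ^ 5 :=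
          pow_le_pow_left₀ (by positivity) (div_le_div_of_nonneg_right hl1 (by norm_num)) 5
      _ ≤ 1 / 180 := by norm_num
  have hδ0 : 0 < (lam / 20) ^ 5 / B := by positivity
  have hδ1 : (lam / 20) ^ 5 / B ≤ 1 / 180 :=
    (div_le_self (by positivity) hB).trans h1
  have h2 := Pool.Agent.Helper42.UG.gap_critical hk hδ0 hδ1 S hfin hgen H hH0 hHd hnil
    (fun t z hz hu => Pool.Agent.Helper42.UG.ord_bound hu hl0 hl1 hB0 (hsmall t z hz hu))
  have e : (lam / 20) ^ 5 / (B * 2 ^ (k + 2) * (2 * d - 1)) =
      (lam / 20) ^ 5 / B / (2 ^ (k + 2) * (2 * d - 1)) := by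
    rw [div_div]
    congr 1
    ring
  rw [e]
  exact h2

end Pool.Agent.Results.MP_d69e80_al.SmallOrdersModP
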